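import Pool.Agent.H435R3.Paley.All

/-!
# Double character sums: arbitrary sets `A`, `B`, almost all dilates
-/

set_option autoImplicit false

namespace Pool.Agent.Results.MP_f6e9a2_nt.AlmostAllDilates

open Finset Pool.Agent.H435R3.Paley

open Classical in
theorem result :
    ∀ ε : ℝ, 0 < ε → ∃ δ : ℝ, 0 < δ ∧ ∃ p₀ : ℕ,
      ∀ (p : ℕ) [Fact p.Prime], p₀ ≤ p → ∀ χ : DirichletCharacter ℂ p, χ ≠ 1 →
      ∀ A B : Finset (ZMod p), (p : ℝ) ^ ε ≤ A.card → (p : ℝ) ^ ε ≤ B.card →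
        ((univ.filter fun t : ZMod p => t ≠ 0 ∧
          (p : ℝ) ^ (-δ) * (A.card * B.card) < ‖∑ a ∈ A, ∑ b ∈ B, χ (a + t * b)‖).card : ℝ) ≤
            (p : ℝ) ^ (1 / 2 + ε) := by
  intro ε hε
  obtain ⟨δ, hδ, h⟩ := dilations ε hε
  obtain ⟨p₀, hp₀⟩ := h (fun r => 2 * r) (fun r => by positivity)
  exact ⟨δ, hδ, p₀, fun p _ hp χ hχ => hp₀ p hp χ (good_all p χ hχ)⟩

end Pool.Agent.Results.MP_f6e9a2_nt.AlmostAllDilates
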