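import Pool.Agent.H435R3.Paley.All

/-!
# Double character sums: `B` a geometric progression, `A` with at most `m` points in every window
-/

set_option autoImplicit false

namespace Pool.Agent.Results.MP_f6e9a2_nt.GeometricProgressions

open Finset Pool.Agent.H435R3.Paley

open Classical in
theorem result :
    ∀ ε : ℝ, 0 < ε → ∃ δ : ℝ, 0 < δ ∧ ∃ p₀ : ℕ,
      ∀ (p : ℕ) [Fact p.Prime], p₀ ≤ p → ∀ χ : DirichletCharacter ℂ p, χ ≠ 1 →
      ∀ (g : (ZMod p)ˣ) (c : ZMod p) (N m : ℕ) (A : Finset (ZMod p)), c ≠ 0 →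
        N ≤ orderOf g →
        (∀ x : ZMod p, ((range N).filter fun j => x * (g : ZMod p) ^ j ∈ A).card ≤ m) →
        (p : ℝ) ^ ε ≤ N → (m : ℝ) * (p : ℝ) ^ (1 / 2 + ε) ≤ A.card * N →
        ‖∑ a ∈ A, ∑ i ∈ range N, χ (a + c * (g : ZMod p) ^ i)‖ ≤
          (p : ℝ) ^ (-δ) * (A.card * N) := by
  intro ε hε
  obtain ⟨δ, hδ, h⟩ := progression ε hε
  obtain ⟨p₀, hp₀⟩ := h (fun r => 2 * r) (fun r => by positivity)
  exact ⟨δ, hδ, p₀, fun p _ hp χ hχ => hp₀ p hp χ (good_all p χ hχ)⟩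

end Pool.Agent.Results.MP_f6e9a2_nt.GeometricProgressions
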