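import Pool.Agent.H435R3.Paley.All
import Pool.Agent.H435R3.Paley.Pairs

/-!
# Double character sums: `B` invariant under a multiplicative subgroup `H`, `A` with few pairs in
the same orbit of `H`
-/

set_option autoImplicit false

namespace Pool.Agent.Results.MP_f6e9a2_nt.InvariantSets

open Finset Pool.Agent.H435R3.Paley

open Classical in
theorem result :
    ∀ ε : ℝ, 0 < ε → ∃ δ : ℝ, 0 < δ ∧ ∃ p₀ : ℕ,
      ∀ (p : ℕ) [Fact p.Prime], p₀ ≤ p → ∀ χ : DirichletCharacter ℂ p, χ ≠ 1 →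
      ∀ (H : Subgroup (ZMod p)ˣ) (A B : Finset (ZMod p)), (0 : ZMod p) ∉ A →
        (∀ h ∈ H, ∀ b ∈ B, (h : ZMod p) * b ∈ B) → (p : ℝ) ^ ε ≤ B.card →
        (((A ×ˢ A).filter fun w => ∃ h ∈ H, (h : ZMod p) * w.1 = w.2).card : ℝ) *
          (p : ℝ) ^ (1 / 2 + ε) ≤ (A.card : ℝ) ^ 2 * Nat.card H →
        ‖∑ a ∈ A, ∑ b ∈ B, χ (a + b)‖ ≤ (p : ℝ) ^ (-δ) * (A.card * B.card) := by
  intro ε hε
  obtain ⟨δ, hδ, h⟩ := pairs ε hε
  obtain ⟨p₀, hp₀⟩ := h (fun r => 2 * r) (fun r => by positivity)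
  exact ⟨δ, hδ, p₀, fun p _ hp χ hχ => hp₀ p hp χ (good_all p χ hχ)⟩

end Pool.Agent.Results.MP_f6e9a2_nt.InvariantSets
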